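import Pool.Agent.Lib.MP_aa40d3_nt.FT.Big
import Pool.Agent.Lib.MP_aa40d3_nt.FS.Top

/-! The monodromy group of a primitive covering; one ordinary point in every fibre. -/

open Matrix

namespace Pool.Agent.GR.FT

open GC FB NP FK CV FS

theorem group_finT (r s : ℕ) (hr : 1 ≤ r) : ∃ k : ℕ, ∀ (d n : ℕ) (Mov Bs : Finset (Fin n))
    (g : Fin n → GLr (r * d)) (ρ : Fin n → ℝ), 3 ≤ d → s + 1 ≤ d → Function.Injective ρ →
    (∀ L, LowerL ρ L → (∀ a, a ∈ L) →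
      PairH Mo (fun x => IsOfFinOrder x.1) (L.map (mkd Mov g))) →
    (∀ a, IsOfFinOrder (g a).val) →
    (∀ L, LowerL ρ L → (∀ a, a ∈ L) → (L.map g).prod = 1) →
    ∀ Z : Subalgebra ℂ (Mt (r * d)),
      SimpZ (incl (Subgroup.closure (Set.range g))) Z →
      (∀ γ ∈ Subgroup.closure (Set.range g), ∀ x ∈ Z, γ.val * x * (γ⁻¹).val ∈ Z) → CommA Z →
      Module.finrank ℂ Z = d → ((∀ e, e ∣ d → 1 < e → e < d → s < 2 * e) ∨
        PrimZ (incl (Subgroup.closure (Set.range g))) Z) →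
      2 * d + k ≤ Bs.card → (∃ a ∈ Mov, a ∈ Bs) →
      (∀ a ∈ Bs, ((g a).val - 1).rank ≤ r ∧ ∃ x ∈ Z, (g a).val * x ≠ x * (g a).val) →
      (∀ a, a ∉ Bs → g a = 1 ∨ She r (d - s) (g a).val Z) →
      Finite (Subgroup.closure (Set.range g)) := by
  obtain ⟨k, hk⟩ := finite_bigT (max s 2) r (le_max_right _ _) hr
  refine ⟨k + 1, fun d n Mov Bs g ρ hd hd' hρ ho hq hinf Z hI hZ hc hfr hpr hB hM hMa hP => ?_⟩
  obtain ⟨b, l, h1, h2, ⟨T, R, h3, h4, h5⟩, h6, h7⟩ := group_pre hr (by omega) hρ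
    (Q := IsOfFinOrder) ho hinf hI hZ hc hfr hM hMa hP
    (fun a => Units.isOfFinOrder_val.1 (hq a)) hB hpr
  have hs : ∀ x : Subgroup.closure (Set.range g), IsOfFinOrder x.val → IsOfFinOrder x := fun x =>
    (Subgroup.subtype_injective _).isOfFinOrder_iff.1
  exact hk d _ _ _ b l (by omega) h1 ⟨h2, ⟨T, R, h3, h4, by omega⟩,
    fun x y B k1 k2 => hs _ (h6 x y B k1 k2), fun x hx => hs x (h7 x hx)⟩

theorem group_vuT (r s : ℕ) (hr : 1 ≤ r) : ∃ k : ℕ, ∀ (d n : ℕ) (Mov Bs : Finset (Fin n))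
    (g : Fin n → GLr (r * d)) (ρ : Fin n → ℝ), 3 ≤ d → s + 1 ≤ d → Function.Injective ρ →
    (∀ L, LowerL ρ L → (∀ a, a ∈ L) → PairH Mo (fun x => QU x.1.val) (L.map (mkd Mov g))) →
    (∀ a, QU (g a).val) →
    (∀ L, LowerL ρ L → (∀ a, a ∈ L) → (L.map g).prod = 1) →
    ∀ Z : Subalgebra ℂ (Mt (r * d)),
      SimpZ (incl (Subgroup.closure (Set.range g))) Z →
      (∀ γ ∈ Subgroup.closure (Set.range g), ∀ x ∈ Z, γ.val * x * (γ⁻¹).val ∈ Z) → CommA Z →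
      Module.finrank ℂ Z = d → ((∀ e, e ∣ d → 1 < e → e < d → s < 2 * e) ∨
        PrimZ (incl (Subgroup.closure (Set.range g))) Z) →
      2 * d + k ≤ Bs.card → (∃ a ∈ Mov, a ∈ Bs) →
      (∀ a ∈ Bs, ((g a).val - 1).rank ≤ r ∧ ∃ x ∈ Z, (g a).val * x ≠ x * (g a).val) →
      (∀ a, a ∉ Bs → g a = 1 ∨ She r (d - s) (g a).val Z) →
      VU (incl (Subgroup.closure (Set.range g))) := by
  obtain ⟨k, hk⟩ := vu_bigT (max s 2) r (le_max_right _ _) hr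
  refine ⟨k + 1, fun d n Mov Bs g ρ hd hd' hρ ho hq hinf Z hI hZ hc hfr hpr hB hM hMa hP => ?_⟩
  obtain ⟨b, l, h1, h2, ⟨T, R, h3, h4, h5⟩, h6, h7⟩ := group_pre hr (by omega) hρ
    (Q := fun x => QU x.val) ho hinf hI hZ hc hfr hM hMa hP hq hB hpr
  exact hk d _ _ _ b l (by omega) h1 ⟨h2, ⟨T, R, h3, h4, by omega⟩, h6, h7⟩

end Pool.Agent.GR.FT
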