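import Pool.Agent.Lib.MP_aa40d3_nt.FK.Cap
import Pool.Agent.Lib.MP_aa40d3_nt.FK.Red

/-! A superfluous pair of exchanges detects all elements that keep the sheets. -/

namespace Pool.Agent.GR.FT

open GC FK

variable {G D : Type} [Group G] [Group D] {d : ℕ} {b : BS G d} {Q : G → Prop} {l C B : List G}
  {x x' z y : G}

theorem trick1 (φ : G →* D) (hφ : ∀ v w, φ v = φ w → Q v → Q w) (hg : gen l = ⊤)
    (hQ : PairQ b Q l) (h : Hur l (x :: x' :: z :: (C ++ y :: y :: B))) (hx : b.IsSw x)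
    (hx' : b.IsSw x') (e : φ x' = φ x) (e' : φ z = φ x) (hy : y * y = 1) (γ : G) :
    Q (γ⁻¹ * x * γ * y) := by
  obtain ⟨w, hw, hγ⟩ : φ γ ∈ (gen (z :: (C ++ y :: y :: B))).map φ := by
    refine (gen_le (H := (Subgroup.map φ _).comap φ)).2 (fun u hu => ?_)
      (h.gen.trans hg ▸ Subgroup.mem_top γ)
    rcases List.mem_cons.1 hu with rfl | hu
    · exact ⟨z, mem_gen List.mem_cons_self, e'⟩
    rcases List.mem_cons.1 hu with rfl | hu
    · exact ⟨z, mem_gen List.mem_cons_self, e'.trans e.symm⟩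
    · exact ⟨u, mem_gen hu, rfl⟩
  have hxx : x * x = 1 := let ⟨_, _, k⟩ := hx; k.2.2.1
  have h1 := ((circle _ hw hxx).trans ((lift_passL hy (z :: C) B).app_left [_, _])).trans
    ((hur_blockL [w⁻¹ * x * w] [w⁻¹ * x * w, y]).app_right (y :: (z :: C ++ B)))
  obtain ⟨l', k1, k2⟩ := Hur.lift_rel (V := fun u v => φ u = φ v ∧ (b.IsSw v → b.IsSw u))
    (l := x :: x' :: z :: (C ++ y :: y :: B)) (fun u u' v v' a1 a2 => ⟨⟨by simp [a1.1, a2.1],
      fun a => by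
        simpa using (a1.2 (by simpa [mul_assoc] using a.conj v')).conj v⁻¹⟩, by simp [a1.1, a2.1],
      fun a => (a2.2 ((BS.isSw_conj _).1 a)).conj u⟩)
    (.cons ⟨rfl, id⟩ (.cons ⟨e, fun _ => hx'⟩ (List.forall₂_same.2 fun _ _ => ⟨rfl, id⟩))) h1
  obtain ⟨u, l₁, a1, a2, rfl⟩ := List.forall₂_cons_right_iff.1 k2
  obtain ⟨v, l₂, a3, -, rfl⟩ := List.forall₂_cons_right_iff.1 a2
  refine hφ _ _ ?_ (hQ u v l₂ (h.trans k1) (a1.2 (by simpa using hx.conj w⁻¹)))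
  simp only [map_mul, map_inv, a1.1, a3.1, hγ]

theorem trick2 {H : Subgroup G} {S : Finset (Fin d)} {i j : Fin d} (hc : b.Conn Finset.univ)
    (hx : b.IsSw x) (hy : b.Swap y j i) (hi : i ∈ S) (hH : H ≤ b.K j) (ha : b.Agree ⊤ H S)
    (hQ : ∀ γ x, Q x → Q (γ * x * γ⁻¹)) (h : ∀ γ, Q (γ⁻¹ * x * γ * y)) (P : G) (hP : b.π P = 1)
    (c : Fin d) : ∃ u ∈ b.K c, Q (u * P) := by
  have hc' := fun a ha c hc' h => (hc a ha c hc' h).imp fun z hz => And.intro (Subgroup.mem_top z) hz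
  obtain ⟨a, a', hx⟩ := hx
  obtain ⟨w, -, e1, e2⟩ := BS.bta_two hc' (Finset.mem_univ a) (Finset.mem_univ a') hx.1
    (Finset.mem_univ j) (Finset.mem_univ i) hy.1
  have h1 := hx.conj w
  rw [e1, e2] at h1
  have key : ∀ P, b.π P = 1 → ∃ u ∈ b.K i, Q (u * P) := fun P hP => by
    have h2 : b.π (P * (w * x * w⁻¹ * y)⁻¹) i = i := by
      rw [map_mul, map_inv, map_mul, h1.2.1, hy.2.1, hP, Equiv.swap_mul_self]
      rfl
    obtain ⟨κ, k1, k2⟩ := ha _ trivial i hi (h2.symm ▸ hi)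
    have k3 := b.conj κ i _ (mul_mem (h1.apply ▸ b.conj _ j _ (inv_mem (hH k1))) (inv_mem k2))
    rw [BS.bsb_apply k2, h2] at k3
    refine ⟨_, k3, ?_⟩
    convert h (κ * w)⁻¹ using 1
    group
  obtain ⟨γ, -, e⟩ := BS.bta_one hc' (Finset.mem_univ i) (Finset.mem_univ c)
  obtain ⟨u, hu, k⟩ := key (γ⁻¹ * P * γ) (by simp [hP])
  have k1 := b.conj γ i u hu
  rw [e, Equiv.swap_apply_left] at k1
  exact ⟨_, k1, by simpa [mul_assoc] using hQ γ _ k⟩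

end Pool.Agent.GR.FT
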