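import Pool.Agent.Lib.MP_aa40d3_nt.FT.Lin
import Pool.Agent.Lib.MP_aa40d3_nt.FT.Trick
import Pool.Agent.Lib.MP_aa40d3_nt.FS.Big

/-! Primitive coverings; the special members are trivial on one sheet. -/

open Matrix

namespace Pool.Agent.GR.FT

open GC NP FK FS

theorem tri (J D : ℕ) : ∃ k : ℕ, ∀ m ≤ D, ∀ (G : Type) [Group G] (l : List G)
    (σ : G →* Mt m) (d : ℕ) (π : G →* Equiv.Perm (Fin d)) (P : G → Bool), π.ker.index ≤ J →
    gen l = ⊤ → LK π (fun x => QU (σ x)) l → (∀ γ x, P x → P (γ * x * γ⁻¹)) →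
    (∀ x, P x → x * x = 1) → k ≤ l.countP P → ∃ (U : Subgroup G) (x y z : G) (R : List G),
      U.Normal ∧ Unip σ U m 1 ∧ Hur l (x :: y :: z :: R) ∧ P x ∧ P y ∧ x * y ∈ U ∧ y * z ∈ U := by
  classical
  obtain ⟨k, hk⟩ := ess_list J D
  choose f hf using triple
  refine ⟨(Finset.range (D + 1)).sup f + k, fun m hD G _ l σ d π P hJ hg hl hc h2 hn => ?_⟩
  obtain ⟨ρ, N, h3, h4, h5, h6⟩ := hk m hD G l σ d π hJ hg hl
  obtain ⟨R, hR⟩ := hur_sel (List.filter_sublist (l := l) (p := fun x => x ∈ N))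
  let T : List N := (l.filter fun x => x ∈ N).pmap Subtype.mk fun _ hx =>
    of_decide_eq_true (List.mem_filter.1 hx).2
  have hT : T.map N.subtype = l.filter fun x => x ∈ N := by
    simp only [T, List.map_pmap, Subgroup.coe_subtype, List.pmap_eq_map, List.map_id']
  obtain ⟨x, y, z, R', k1, k2, k3, -, k4, k5⟩ := hf m N (ρ.comp N.subtype) (fun x => P x) ⟨h5⟩
    (fun γ x => hc γ x) (fun x hx => Subtype.ext (h2 x hx)) T (by
      have e1 : T.countP (fun x : N => P x) = (l.filter fun x => x ∈ N).countP P := by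
        rw [← hT, List.countP_map]
        rfl
      have e2 := List.countP_eq_countP_filter_add l P fun x => x ∈ N
      have e3 : (l.filter fun x => !decide (x ∈ N)).countP P ≤ l.countP fun x => x ∉ N := by
        rw [List.countP_filter]
        exact List.countP_mono_left fun x _ hx => by simp at hx ⊢; exact hx.2
      have e4 : f m ≤ (Finset.range (D + 1)).sup f :=
        Finset.le_sup (f := f) (Finset.mem_range.2 (by omega))
      omega)
  have k6 := k1.map N.subtype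
  rw [hT] at k6
  have key : ∀ u v : G, P u → ρ u = ρ v → u * v ∈ ρ.ker := fun u v hu e => by
    rw [MonoidHom.mem_ker, map_mul, ← e, ← map_mul, h2 u hu, map_one]
  exact ⟨ρ.ker, x, y, z, _, inferInstance, h6, hR.trans (k6.app_right R), k2, k3, key _ _ k2 k4,
    key _ _ k3 k5⟩

section
variable {G : Type} [Group G] {d s k m : ℕ} {Q : G → Prop} {l : List G} {σ : G →* Mt m}

theorem reduceU {b : BS G d} (h3 : 2 ≤ s) (hd : s + 1 ≤ d) (h : Bg b s (k + 1) Q l)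
    (hc : ∀ γ x, Q x → Q (γ * x * γ⁻¹))
    (hb : ∀ P, b.π P = 1 → (∀ i, P ∈ b.K i ∨ ∃ u ∈ b.K i, Q (u * P)) → Q P) :
    ∃ (S : Finset (Fin d)) (A B : List G) (y : G) (j i : Fin d), S.card = s ∧ j ∉ S ∧ i ∈ S ∧
      Hur l (A ++ y :: y :: B) ∧ b.Swap y j i ∧ b.Sup (gen A) S ∧ b.Agree ⊤ (gen A) S ∧
      k ≤ b.cs A ∧ LK b.π Q A := by
  obtain ⟨hg, ⟨T, R, h1, h2, h4⟩, hQ, hl⟩ := h
  obtain ⟨c, hc'⟩ := Nat.exists_eq_add_of_le hd
  obtain ⟨S, -, hS, j, hj, i, hi, T', R', y, B, k1, k2, k3, k4, k5⟩ :=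
    reduceS le_rfl h3 c Finset.univ T R (by simp [hc']) h2 (by simp; omega)
  have k6 : Hur l ((T' ++ R' ++ [y, y]) ++ B) := by simpa using h1.trans k1
  have hQ' : PairQ b Q (T' ++ R' ++ [y, y]) := fun u v C e =>
    hQ u v (C ++ B) (k6.trans (e.app_right B))
  have hA : ∀ a ∈ T' ++ R', a ∈ b.K j := fun a ha => k3.sup a (mem_gen ha) j hj
  refine ⟨S, T' ++ R', B, y, j, i, hS, hj, hi, h1.trans k1, k2, k3.sup, ?_, ?_,
    fun C C' hT hπ => ?_⟩
  · rwa [h1.gen, hg] at k5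
  · rw [cs_nf k3.sw fun x hx => (k3.sp x hx).2]
    omega
  · rcases hπ with hπ | hπ
    · refine hb _ hπ fun c => ?_
      by_cases e : c ∈ S
      · obtain ⟨γ, hγ, rfl⟩ := k3.tr i hi c e
        exact Or.inr (cap hQ' (Hur.refl _) k2 hA hT (gen_left _ _ hγ))
      · exact Or.inl (k3.sup _ (hT.gen ▸ (gen (C ++ C')).list_prod_mem fun x hx =>
          mem_gen (List.mem_append_left _ hx)) c e)
    · obtain ⟨w, rfl⟩ := List.length_eq_one_iff.1 hπ
      rw [List.prod_singleton]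
      exact (k6.trans ((hT.app_right _).app_right _)).all hc hl w (by simp)

/-- A unipotent normal subgroup of the small group lies in one of the whole group. -/
theorem core_unip (b : BR σ d) (h0 : ∀ i, b.e i ≠ 0) {H : Subgroup G} {S : Finset (Fin d)}
    {i : Fin d} (ht : b.bs.Trans ⊤ Finset.univ) (hi : i ∈ S) (hs : b.bs.Sup H S)
    (h : b.bs.Agree ⊤ H S) {U : Subgroup H} [U.Normal] (u0 : Unip (σ.comp H.subtype) U k 1) :
    ∃ N : Subgroup G, N.Normal ∧ Unip σ N k 1 ∧ ∀ u ∈ U, u.val ∈ N := by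
  have hπ : ∀ g ∈ U, b.π g.val = 1 := fun g hg =>
    unip_pi b h0 (unip_nil u0 hg) (unip_nil u0 (inv_mem hg))
  have hc : ∀ g ∈ U, σ g.val * b.e i = b.e i * σ g.val := fun g hg => by
    rw [b.act, hπ g hg]
    rfl
  refine ⟨(bg1_sub σ U (b.e i) hc).normalCore, inferInstance, fun l hl hk => ?_,
    fun u hu γ => ?_⟩
  · refine (congrArg (_ * ·) b.sum.symm).trans ?_
    rw [Finset.mul_sum]
    refine Finset.sum_eq_zero fun c _ => ?_
    obtain ⟨γ, -, hγ⟩ := ht i (Finset.mem_univ _) c (Finset.mem_univ _)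
    obtain ⟨l', h1, h2, h3⟩ := bg1_prod U (b.e i) hc (l.map fun x => γ⁻¹ * x * γ)
      fun y hy => by
        obtain ⟨x, hx, rfl⟩ := List.mem_map.1 hy
        have h4 := hl x hx γ⁻¹
        rw [inv_inv] at h4
        exact h4
    have h4 := u0 l' h1 (by rw [h2, List.length_map, hk])
    rw [mul_one] at h4
    have h5 : (l'.map fun g : H => σ g.val - 1).prod = 0 := h4
    have h6 : b.e c = σ γ * b.e i * σ γ⁻¹ := by
      rw [b.act, show b.π γ i = c from hγ, mul_assoc, rep_mul_inv, mul_one]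
    rw [h6, ← mul_assoc, ← mul_assoc, bg1_conj, mul_assoc (σ γ), h3, h5, mul_zero, mul_zero,
      zero_mul]
  · obtain ⟨c, rfl⟩ := (b.bs.π γ).surjective i
    by_cases e : c ∈ S
    · obtain ⟨g, hg, h1⟩ := h γ trivial c e hi
      refine ⟨⟨g, hg⟩ * u * ⟨g, hg⟩⁻¹, Subgroup.Normal.conj_mem inferInstance u hu _, ?_⟩
      have h2 := b.bs.conj u.val⁻¹ c _ h1
      rw [show b.bs.π u.val⁻¹ = 1 from hπ _ (inv_mem hu)] at h2
      have h3 := b.bs.conj g c _ (mul_mem h2 (inv_mem h1))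
      rw [BS.bsb_apply h1] at h3
      conv_rhs => rw [← h3.2, ← mul_assoc, ← map_mul]
      congr 2
      change _ = g * u * g⁻¹ * _
      group
    · exact ⟨1, one_mem _, (b.bs.conj γ c u (hs u u.2 c e)).2.trans (by
        rw [OneMemClass.coe_one, map_one, one_mul])⟩

end

theorem pre (s r : ℕ) (hs : 2 ≤ s) (hr : 1 ≤ r) : ∃ k : ℕ, ∀ (d m : ℕ) (G : Type) [Group G]
    (σ : G →* Mt m) (b : BR σ d) (l : List G) (Q : G → Prop), s + 1 ≤ d →
    (∀ i, (b.e i).rank = r) → Bg b.bs s k Q l → (∀ x, Q x → QU (σ x)) →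
    (∀ γ x, Q x → Q (γ * x * γ⁻¹)) →
    (∀ P, b.bs.π P = 1 → (∀ i, P ∈ b.bs.K i ∨ ∃ u ∈ b.bs.K i, Q (u * P)) → Q P) →
    ∃ (N : Subgroup G) (j : ℕ) (x x' z y : G) (C B : List G), N.Normal ∧ Unip σ N j 1 ∧
      Hur l (x :: x' :: z :: (C ++ y :: y :: B)) ∧ b.bs.IsSw x ∧ b.bs.IsSw x' ∧ y * y = 1 ∧
      x * x' ∈ N ∧ x' * z ∈ N ∧
      ((∀ γ, Q (γ⁻¹ * x * γ * y)) → ∀ P, ∃ n, 0 < n ∧ Q (P ^ n)) := by
  classical
  obtain ⟨k, hk⟩ := tri (s ^ s) (s * r)
  refine ⟨k + 1, fun d m G _ σ b l Q hd hrk h hq hc hb => ?_⟩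
  have h0 : ∀ i, b.e i ≠ 0 := fun i e => by
    have := hrk i
    rw [e, Matrix.rank_zero] at this
    omega
  obtain ⟨S, A, B, y, j, i, hS, hj, hi, h1, h2, h3, h4, h5, h6⟩ := reduceU hs hd h hc hb
  obtain ⟨m', τ, k1, k2, k3⟩ := restr b (gen A) h3
  let l' : List (gen A) := A.pmap Subtype.mk fun _ => mem_gen
  have hl' : l'.map (gen A).subtype = A := by
    simp only [l', List.map_pmap, Subgroup.coe_subtype, List.pmap_eq_map, List.map_id']
  obtain ⟨U, x, x', z, R, a1, a2, a3, a4, a5, a6, a7⟩ := hk m' (k1.trans (by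
      simp only [hrk, Finset.sum_const, hS, smul_eq_mul, le_refl])) (gen A) l' τ d
    (b.π.comp (gen A).subtype) (fun x => decide (b.bs.IsSw x.val))
    (hS ▸ ker_index _ S fun x j hj => (h3 x x.2 j hj).1) (by
      apply Subgroup.map_injective (gen A).subtype_injective
      rw [← MonoidHom.range_eq_map, Subgroup.range_subtype]
      refine (MonoidHom.map_closure _ _).trans (congrArg Subgroup.closure ?_)
      ext x
      exact List.mem_map.symm.trans (iff_of_eq (congrArg (x ∈ ·) hl')))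
    (LK.of_map (gen A).subtype (π' := b.π) (fun _ => rfl) (fun x hx => k2 x (hq _ hx))
      (hl'.symm ▸ h6))
    (fun γ x hx => decide_eq_true ((of_decide_eq_true hx).conj γ.val))
    (fun x hx => let ⟨_, _, e⟩ := of_decide_eq_true hx; Subtype.ext e.2.2.1) (h5.trans (by
      conv_lhs => rw [← hl', BS.cs, List.countP_map]
      rfl))
  obtain ⟨N, n1, n2, n3⟩ := core_unip b h0 h.trans hi h3 h4 (k3 U m' a2)
  have a8 := a3.map (gen A).subtype
  rw [hl'] at a8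
  refine ⟨N, _, x, x', z, y, _, B, n1, n2, h1.trans (a8.app_right _), of_decide_eq_true a4,
    of_decide_eq_true a5, h2.2.2.1, n3 _ a6, n3 _ a7, fun e P =>
      ⟨_, orderOf_pos (b.π P), hb _ ?_ fun c => Or.inr ?_⟩⟩
  · exact (map_pow _ _ _).trans (pow_orderOf_eq_one _)
  obtain ⟨T, R, -, t1, -⟩ := h.nf
  exact trick2 (fun u hu v hv e => (BS.conn_sub t1.sw t1.tr u hu v hv e).imp fun _ e => e.2)
    (of_decide_eq_true a4) h2 hi (fun u hu => h3 u hu j hj) h4 hc e _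
    ((map_pow _ _ _).trans (pow_orderOf_eq_one _)) c

theorem finite_bigT (s r : ℕ) (hs : 2 ≤ s) (hr : 1 ≤ r) : ∃ k : ℕ, ∀ (d m : ℕ) (G : Type) [Group G]
    (σ : G →* Mt m) (b : BR σ d) (l : List G), s + 1 ≤ d → (∀ i, (b.e i).rank = r) →
    Bg b.bs s k IsOfFinOrder l → Finite G := by
  obtain ⟨k, hk⟩ := pre s r hs hr
  refine ⟨k, fun d m G _ σ b l hd hrk h => ?_⟩
  obtain ⟨N, j, x, x', z, y, C, B, h1, h2, h3, h4, h5, h6, h7, h8, h9⟩ :=
    hk d m G σ b l _ hd hrk h (fun _ => qu_of_fin σ)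
      (fun γ x hx => (isConj_iff.2 ⟨γ, rfl⟩ : IsConj x (γ * x * γ⁻¹)).isOfFinOrder hx)
      (fin_sheets b.bs)
  have tf : ∀ {N : Subgroup G} {j : ℕ}, Unip σ N j 1 → ∀ w ∈ N, IsOfFinOrder w → w = 1 :=
    fun h w hw e => b.inj ((unip_tf (unip_nil h hw) e).trans (map_one σ).symm)
  have key : ∀ u v R, Hur l (u :: v :: R) → b.bs.IsSw u → u * v ∈ N → v = u :=
    fun u v R e hu hN => by
      obtain ⟨_, _, hu'⟩ := id hu
      exact mul_left_cancel ((tf h2 _ hN (h.pair u v R e hu)).trans hu'.2.2.1.symm)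
  obtain rfl := key x x' _ h3 h4 h7
  obtain rfl := key x' z _ (h3.trans ((hur_blockL [x'] [x', z]).app_right _)) h4 h8
  have h10 : ∀ P : G, IsOfFinOrder P := fun P => by
    obtain ⟨n, hn, e⟩ := h9 (trick1 (MonoidHom.id G) (fun v w e hv => (show v = w from e) ▸ hv)
      h.gen h.pair h3 h4 h4 rfl rfl h6) P
    exact e.of_pow hn.ne'
  obtain ⟨H, f1, f2⟩ := kol σ h.gen fun x => qu_of_fin σ (h10 x)
  rw [(Subgroup.eq_bot_iff_forall H).2 fun w hw => tf f2 w hw (h10 w)] at f1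
  exact Nat.finite_of_card_ne_zero (Subgroup.index_bot (G := G) ▸ f1.index_ne_zero)

theorem vu_bigT (s r : ℕ) (hs : 2 ≤ s) (hr : 1 ≤ r) : ∃ k : ℕ, ∀ (d m : ℕ) (G : Type) [Group G]
    (σ : G →* Mt m) (b : BR σ d) (l : List G), s + 1 ≤ d → (∀ i, (b.e i).rank = r) →
    Bg b.bs s k (fun x => QU (σ x)) l → VU σ := by
  obtain ⟨k, hk⟩ := pre s r hs hr
  refine ⟨k, fun d m G _ σ b l hd hrk h => ?_⟩
  have : Group.FG G := Group.fg_iff.2 ⟨_, h.gen, l.finite_toSet⟩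
  obtain ⟨N, j, x, x', z, y, C, B, h1, h2, h3, h4, h5, h6, h7, h8, h9⟩ :=
    hk d m G σ b l _ hd hrk h (fun _ => id) FBN.qu_conj (qu_sheets b)
  have key : ∀ u v, b.bs.IsSw u → u * v ∈ N → QuotientGroup.mk' N v = QuotientGroup.mk' N u :=
    fun u v ⟨_, _, hu⟩ hN => (QuotientGroup.eq.2 (hu.inv.symm ▸ hN)).symm
  obtain ⟨H, f1, f2⟩ := kol σ h.gen fun P => by
    obtain ⟨n, hn, E, hE, e⟩ := h9 (trick1 (QuotientGroup.mk' N) (qu_mod h2) h.gen h.pair h3 h4 h5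
      (key _ _ h4 h7) ((key _ _ h5 h8).trans (key _ _ h4 h7)) h6) P
    exact ⟨n * E, Nat.mul_pos hn hE, by rwa [map_pow, ← pow_mul] at e⟩
  exact ⟨H, m, f1, f2⟩

end Pool.Agent.GR.FT
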