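import Pool.Agent.Lib.MP_aa40d3_nt.FT.Ncl
import Pool.Agent.Lib.MP_aa40d3_nt.FK.Small

/-! All but a bounded number of generators have a virtually unipotent normal closure. -/

open Matrix

namespace Pool.Agent.GR.FT

open GC NP NS FK

section
variable {G : Type} [Group G] {m : ℕ} {σ : G →* Mt m}

theorem cmp {E : Mt m} (hE : E * E = E) (hσ : ∀ x y, E * σ x * E * σ y * E = E * σ (x * y) * E) :
    ∃ (τ : G →* Mt E.rank) (P : Matrix (Fin m) (Fin E.rank) ℂ) (Q : Matrix (Fin E.rank) (Fin m) ℂ),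
      Q * P = 1 ∧ P * Q = E ∧ (∀ x, QU (σ x) → QU (τ x)) ∧ ∀ H k, Unip τ H k 1 → ∀ L : List G,
        (∀ x ∈ L, x ∈ H) → L.length = k → E * (L.map fun x => σ x - 1).prod * E = 0 := by
  obtain ⟨P, Q, hQP, hPQ⟩ := idem_fac hE
  generalize E.rank = m' at P Q hQP hPQ ⊢
  have EP : E * P = P := by rw [← hPQ, Matrix.mul_assoc, hQP, Matrix.mul_one]
  have QE : Q * E = Q := by rw [← hPQ, ← Matrix.mul_assoc, hQP, Matrix.one_mul]
  have mid : ∀ x y : Mt m, Q * x * P * (Q * y * P) = Q * (x * E * y) * P := fun x y => by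
    simp only [← hPQ, Matrix.mul_assoc]
  have sand : ∀ x : Mt m, Q * (E * x * E) * P = Q * x * P := fun x => by
    rw [Matrix.mul_assoc, Matrix.mul_assoc, EP, Matrix.mul_assoc, ← Matrix.mul_assoc Q E, QE,
      Matrix.mul_assoc]
  let τ : G →* Mt m' :=
    { toFun := fun y => Q * σ y * P
      map_one' := by rw [map_one, Matrix.mul_one, hQP]
      map_mul' := fun x y => by
        rw [mid, ← sand (σ (x * y)), ← hσ, ← sand (σ x * E * σ y)]
        simp only [Matrix.mul_assoc] }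
  have hL : ∀ x, τ x = sandL Q P (σ x) := fun _ => rfl
  refine ⟨τ, P, Q, hQP, hPQ, fun x => QU.of_lin hL, fun H k h L k1 k2 => ?_⟩
  have h3 := h L k1 k2
  have h4 := lin_prod hL L 1
  rw [map_one, map_one, one_mul, one_mul] at h4
  rw [mul_one] at h3
  have h5 : Q * (L.map fun x => σ x - 1).prod * P = 0 := h4.trans h3
  rw [← hPQ, ← Matrix.mul_assoc, Matrix.mul_assoc P, Matrix.mul_assoc P, h5, Matrix.mul_zero,
    Matrix.zero_mul]

theorem unip_two {Q : Mt m} (q1 : Q * Q = Q) (q3 : ∀ x, Q * (σ x * Q) = σ x * Q)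
    {N₁ N₂ : Subgroup G} {j₁ j₂ : ℕ} (n2 : ∀ L : List G, (∀ x ∈ L, x ∈ N₁) → L.length = j₁ →
      Q * (L.map fun x => σ x - 1).prod * Q = 0) (n4 : ∀ L : List G, (∀ x ∈ L, x ∈ N₂) →
      L.length = j₂ → (1 - Q) * (L.map fun x => σ x - 1).prod * (1 - Q) = 0) :
    Unip σ (N₁ ⊓ N₂) (j₁ + j₂) 1 := fun L k1 k2 => by
  have p2 : ∀ x, (1 - Q) * σ x * Q = 0 := fun x => by
    rw [mul_assoc, sub_mul, one_mul, q3, sub_self]
  have p4 : (1 - Q) * Q = 0 := by rw [sub_mul, q1, one_mul, sub_self]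
  have inv : ∀ L : List G, (1 - Q) * (L.map fun x => σ x - 1).prod * Q = 0 := fun L => by
    induction L with
    | nil => simpa using p4
    | cons x L ih =>
      have h1 : (L.map fun x => σ x - 1).prod * Q = Q * ((L.map fun x => σ x - 1).prod * Q) := by
        rw [mul_assoc, sub_mul, one_mul, sub_eq_zero] at ih
        exact ih
      rw [List.map_cons, List.prod_cons, mul_assoc, mul_assoc, h1, ← mul_assoc, ← mul_assoc,
        mul_sub (1 - Q), sub_mul, p2, mul_one, p4, sub_zero, zero_mul]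
  have a1 := n2 (L.take j₁) (fun x hx => (k1 x (List.mem_of_mem_take hx)).1)
    (by rw [List.length_take]; omega)
  have a2 := n4 (L.drop j₁) (fun x hx => (k1 x (List.mem_of_mem_drop hx)).2)
    (by rw [List.length_drop]; omega)
  have a3 := inv (L.take j₁)
  have a4 := inv (L.drop j₁)
  rw [← L.take_append_drop j₁, List.map_append, List.prod_append, mul_one]
  generalize ((L.take j₁).map fun x => σ x - 1).prod = U at a1 a3
  generalize ((L.drop j₁).map fun x => σ x - 1).prod = V at a2 a4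
  calc U * V = (Q * U * Q + (1 - Q) * U * Q) * V +
        U * ((1 - Q) * V * (1 - Q) + (1 - Q) * V * Q) := by noncomm_ring
    _ = 0 := by rw [a1, a2, a3, a4, add_zero, zero_mul, mul_zero, add_zero]

theorem dsum {m₁ m₂ : ℕ} (ρ₁ : G →* Mt m₁) (ρ₂ : G →* Mt m₂) {E : Mt m} (hE : E * E = E)
    {P₁ : Matrix (Fin m) (Fin m₁) ℂ} {Q₁ : Matrix (Fin m₁) (Fin m) ℂ}
    {P₂ : Matrix (Fin m) (Fin m₂) ℂ} {Q₂ : Matrix (Fin m₂) (Fin m) ℂ} (a1 : Q₁ * P₁ = 1)
    (a2 : P₁ * Q₁ = E) (b1 : Q₂ * P₂ = 1) (b2 : P₂ * Q₂ = 1 - E) :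
    ∃ ρ : G →* Mt m, ρ.ker = ρ₁.ker ⊓ ρ₂.ker := by
  have c1 : Q₁ * P₂ = 0 :=
    calc Q₁ * P₂ = Q₁ * P₁ * (Q₁ * P₂) * (Q₂ * P₂) := by rw [a1, b1, Matrix.one_mul, Matrix.mul_one]
      _ = Q₁ * (P₁ * Q₁ * (P₂ * Q₂)) * P₂ := by simp only [Matrix.mul_assoc]
      _ = 0 := by rw [a2, b2, mul_sub, mul_one, hE, sub_self, Matrix.mul_zero, Matrix.zero_mul]
  have c2 : Q₂ * P₁ = 0 :=
    calc Q₂ * P₁ = Q₂ * P₂ * (Q₂ * P₁) * (Q₁ * P₁) := by rw [a1, b1, Matrix.one_mul, Matrix.mul_one]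
      _ = Q₂ * (P₂ * Q₂ * (P₁ * Q₁)) * P₁ := by simp only [Matrix.mul_assoc]
      _ = 0 := by rw [a2, b2, sub_mul, one_mul, hE, sub_self, Matrix.mul_zero, Matrix.zero_mul]
  have d1 : ∀ X : Matrix (Fin m₁) (Fin m) ℂ, Q₁ * (P₁ * X) = X := fun X => by
    rw [← Matrix.mul_assoc, a1, Matrix.one_mul]
  have d2 : ∀ X : Matrix (Fin m₂) (Fin m) ℂ, Q₂ * (P₂ * X) = X := fun X => by
    rw [← Matrix.mul_assoc, b1, Matrix.one_mul]
  have d3 : ∀ X : Matrix (Fin m₂) (Fin m) ℂ, Q₁ * (P₂ * X) = 0 := fun X => by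
    rw [← Matrix.mul_assoc, c1, Matrix.zero_mul]
  have d4 : ∀ X : Matrix (Fin m₁) (Fin m) ℂ, Q₂ * (P₁ * X) = 0 := fun X => by
    rw [← Matrix.mul_assoc, c2, Matrix.zero_mul]
  refine ⟨{ toFun := fun x => P₁ * (ρ₁ x * Q₁) + P₂ * (ρ₂ x * Q₂)
            map_one' := by rw [map_one, map_one, Matrix.one_mul, Matrix.one_mul, a2, b2, add_sub_cancel]
            map_mul' := fun x y => by
              simp only [map_mul, Matrix.add_mul, Matrix.mul_add, Matrix.mul_assoc, d1, d2, d3, d4,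
                Matrix.mul_zero, add_zero, zero_add] }, Subgroup.ext fun x => ?_⟩
  change P₁ * (ρ₁ x * Q₁) + P₂ * (ρ₂ x * Q₂) = 1 ↔ ρ₁ x = 1 ∧ ρ₂ x = 1
  refine ⟨fun h => ⟨?_, ?_⟩, fun h => by
    rw [h.1, h.2, Matrix.one_mul, Matrix.one_mul, a2, b2, add_sub_cancel]⟩
  · have := congrArg (fun X => Q₁ * X * P₁) h
    simpa only [Matrix.mul_add, d1, d3, add_zero, Matrix.mul_assoc, a1, Matrix.mul_one] using this
  · have := congrArg (fun X => Q₂ * X * P₂) h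
    simpa only [Matrix.mul_add, d2, d4, zero_add, Matrix.mul_assoc, b1, Matrix.mul_one] using this

theorem rank_ne {E : Mt m} (h : E ≠ 0) : E.rank ≠ 0 := fun h3 => by
  rw [Matrix.rank, Submodule.finrank_eq_zero, LinearMap.range_eq_bot, ← toLin'_apply',
    LinearEquiv.map_eq_zero_iff] at h3
  exact h h3

end

theorem ess (J D : ℕ) : ∃ k : ℕ, ∀ (n : ℕ) (L0 : List (Fin n)) (G : Type) [Group G] (g : Fin n → G)
    (K : Subgroup G) [K.Normal] [K.FiniteIndex], K.index ≤ J → L0.Nodup → (∀ a, a ∈ L0) →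
    Subgroup.closure (Set.range g) = ⊤ → ∀ m ≤ D, ∀ σ : G →* Mt m, (∀ a, QU (σ (g a))) →
    (∀ x, IsLoop Finset.univ L0 g x → x ∈ K → QU (σ x)) →
    ∃ (ρ : G →* Mt m) (S : Finset (Fin n)), Sᶜ.card ≤ m * k ∧ ρ.ker.relIndex (ncl g S) ≠ 0 ∧
      Unip σ ρ.ker m 1 := by
  choose f hf using fun m => finite_nclT (m + 1) J
  refine ⟨(Finset.range D).sup f, fun n L0 G _ g K _ _ hJ h0 hall hg m => ?_⟩
  induction m using Nat.strong_induction_on with
  | _ m ih =>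
  intro hD σ hq hl
  rcases m with _ | m
  · refine ⟨σ, Finset.univ, by simp, ?_, fun _ _ _ => Subsingleton.elim _ _⟩
    rw [show σ.ker = ⊤ from eq_top_iff.2 fun x _ => Subsingleton.elim _ _,
      Subgroup.relIndex_top_left]
    exact one_ne_zero
  by_cases hI : IrrR σ
  · obtain ⟨S, -, h1, h2⟩ := hf m n Finset.univ L0 G g σ K hJ h0 hall hg hI hq hl
    refine ⟨σ, S, (h1.trans (Finset.le_sup (f := f) (Finset.mem_range.2 hD))).trans
      (Nat.le_mul_of_pos_left _ m.succ_pos), h2, fun L k1 k2 => ?_⟩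
    obtain ⟨x, L, rfl⟩ := List.exists_cons_of_length_eq_add_one k2
    rw [List.map_cons, List.prod_cons, MonoidHom.mem_ker.1 (k1 x List.mem_cons_self), sub_self,
      zero_mul, zero_mul]
  rw [IrrR] at hI
  push Not at hI
  obtain ⟨U, u1, u2, u3⟩ := hI
  obtain ⟨Q, hQ1, hQ2⟩ := mono_proj U
  have q1 : Q * Q = Q := Matrix.ext_iff_mulVec.2 fun v => by rw [← mulVec_mulVec, hQ2 _ (hQ1 v)]
  have q3 : ∀ x, Q * (σ x * Q) = σ x * Q := fun x => Matrix.ext_iff_mulVec.2 fun v => by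
    rw [← mulVec_mulVec, ← mulVec_mulVec, hQ2 _ (u1 x _ (hQ1 v))]
  have p1 : (1 - Q) * (1 - Q) = 1 - Q := by
    rw [mul_sub, sub_mul, sub_mul, q1, mul_one, mul_one, one_mul, sub_self, sub_zero]
  have p2 : ∀ x, (1 - Q) * σ x * Q = 0 := fun x => by
    rw [mul_assoc, sub_mul, one_mul, q3, sub_self]
  have hr1 : Q.rank ≠ 0 := rank_ne fun h => u2 ((Submodule.eq_bot_iff _).2 fun v hv => by
    rw [← hQ2 v hv, h, zero_mulVec])
  have hr2 : (1 - Q).rank ≠ 0 := rank_ne fun h => u3 (eq_top_iff.2 fun v _ => by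
    have := hQ1 v
    rwa [← sub_eq_zero.1 h, one_mulVec] at this)
  have hrk := rank_idem q1
  obtain ⟨τ₁, P₁, Q₁, a1, a2, a3, a4⟩ := cmp (σ := σ) q1 fun x y => by
    rw [mul_assoc (Q * σ x), mul_assoc (Q * σ x), mul_assoc Q (σ y), q3, map_mul]
    simp only [mul_assoc]
  obtain ⟨τ₂, P₂, Q₂, b1, b2, b3, b4⟩ := cmp (σ := σ) p1 fun x y => by
    rw [mul_sub ((1 - Q) * σ x), p2, mul_one, sub_zero, map_mul, ← mul_assoc]
  obtain ⟨ρ₁, S₁, c1, c2, c3⟩ := ih _ (by omega) (by omega) τ₁ (fun a => a3 _ (hq a))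
    fun x h h' => a3 _ (hl x h h')
  obtain ⟨ρ₂, S₂, d1, d2, d3⟩ := ih _ (by omega) (by omega) τ₂ (fun a => b3 _ (hq a))
    fun x h h' => b3 _ (hl x h h')
  obtain ⟨ρ, e⟩ := dsum ρ₁ ρ₂ q1 a1 a2 b1 b2
  refine ⟨ρ, S₁ ∩ S₂, ?_, ?_, ?_⟩
  · rw [Finset.compl_inter, ← hrk, add_mul]
    exact (Finset.card_union_le _ _).trans (Nat.add_le_add c1 d1)
  · rw [e]
    exact Subgroup.relIndex_inf_ne_zero
      (mt (Subgroup.relIndex_eq_zero_of_le_right (ncl_mono g Finset.inter_subset_left)) c2)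
      (mt (Subgroup.relIndex_eq_zero_of_le_right (ncl_mono g Finset.inter_subset_right)) d2)
  · have := unip_two q1 q3 (a4 _ _ c3) (b4 _ _ d3)
    rwa [hrk, ← e] at this

open Classical in
theorem ess_list (J D : ℕ) : ∃ k : ℕ, ∀ m ≤ D, ∀ (G : Type) [Group G] (l : List G)
    (σ : G →* Mt m) (d : ℕ) (π : G →* Equiv.Perm (Fin d)), π.ker.index ≤ J → gen l = ⊤ →
    LK π (fun x => QU (σ x)) l → ∃ (ρ : G →* Mt m) (N : Subgroup G), N.Normal ∧
      l.countP (fun x => x ∉ N) ≤ k ∧ ρ.ker.relIndex N ≠ 0 ∧ Unip σ ρ.ker m 1 := by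
  obtain ⟨k, hk⟩ := ess J D
  refine ⟨D * k, fun m hD G _ l σ d π hJ hg hfin => ?_⟩
  have hl : (List.finRange l.length).map l.get = l := List.map_get_finRange l
  have := ker_fi π
  obtain ⟨ρ, S, h1, h2, h3⟩ := hk l.length (List.finRange _) G l.get π.ker hJ
    (List.nodup_finRange _) List.mem_finRange (by
      rw [← hg, gen]
      congr 1
      ext x
      exact List.mem_iff_get.symm) m hD σ (fun a => hfin.mem (List.get_mem l a)) fun x hx hK => by
      obtain ⟨L, R, h, hs, -, rfl⟩ := hx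
      have h1 := hur_of_st (List.nodup_finRange _) hs
      rw [hl, List.map_append] at h1
      exact hfin (L.map h) (R.map h) h1 (Or.inl (MonoidHom.mem_ker.1 hK))
  refine ⟨ρ, _, ncl_normal _ S, le_trans ?_ (h1.trans (Nat.mul_le_mul_right k hD)), h2, h3⟩
  generalize ncl l.get S = N, (fun a => mem_ncl (g := l.get) (S := S) (a := a)) = hN
  conv_lhs => rw [← hl, List.countP_map, List.countP_eq_length_filter,
    ← List.toFinset_card_of_nodup ((List.nodup_finRange _).filter _)]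
  refine Finset.card_le_card fun a ha => Finset.mem_compl.2 fun h => ?_
  exact of_decide_eq_true (List.mem_filter.1 (List.mem_toFinset.1 ha)).2 (hN a h)

/-- The theorems of Burnside and Kolchin. -/
theorem kol {G : Type} [Group G] {m : ℕ} (σ : G →* Mt m) {l : List G} (hg : gen l = ⊤)
    (h : ∀ x, QU (σ x)) : ∃ H : Subgroup G, H.FiniteIndex ∧ Unip σ H m 1 := by
  classical
  obtain ⟨k, hk⟩ := ess_list 1 m
  obtain ⟨ρ, N, -, h1, h2, h3⟩ := hk m le_rfl G (List.replicate (k + 1) l).flatten σ 0 1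
    (by simp) (by
      rw [eq_top_iff, ← hg, gen_le]
      exact fun x hx => mem_gen (by simp [hx])) fun _ _ _ _ => h _
  rw [List.countP_flatten, List.map_replicate, List.sum_replicate, smul_eq_mul] at h1
  have h4 : N = ⊤ := by
    rw [eq_top_iff, ← hg, gen_le]
    intro x hx
    by_contra hn
    have h5 : 0 < l.countP fun x => x ∉ N := List.countP_pos_iff.2 ⟨x, hx, decide_eq_true hn⟩
    have := Nat.mul_le_mul_left (k + 1) h5
    omega
  rw [h4, Subgroup.relIndex_top_right] at h2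
  exact ⟨_, ⟨h2⟩, h3⟩

end Pool.Agent.GR.FT
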