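import Pool.Agent.Lib.MP_aa40d3_nt.FT.Ess
import Pool.Agent.Lib.MP_aa40d3_nt.NP.Big

/-! Unipotent normal subgroups. -/

open Matrix

namespace Pool.Agent.GR.FT

open GC NP

theorem nil_pow {R : Type} [Ring R] {c : R} (hc : IsNilpotent (c - 1)) (i : ℕ) :
    IsNilpotent (c ^ i - 1) := by
  rw [← geom_sum_mul]
  exact (Commute.sum_left _ _ _ fun j _ =>
    ((Commute.refl c).pow_left j).sub_right (Commute.one_right _)).isNilpotent_mul_left hc

theorem tf {R M : Type} [Ring R] [Algebra ℂ R] [AddCommGroup M] [Module R M] {c : R} {v : M}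
    {E : ℕ} (hc : IsNilpotent (c - 1)) (hE : 0 < E) (h : c ^ E • v = v) : c • v = v := by
  have h1 : IsUnit (∑ i ∈ Finset.range E, c ^ i) := by
    have h2 : ∑ i ∈ Finset.range E, c ^ i =
        ∑ i ∈ Finset.range E, (c ^ i - 1) + algebraMap ℂ R E := by simp
    rw [h2]
    refine IsNilpotent.isUnit_add_right_of_commute (Commute.isNilpotent_sum
      (fun i _ => nil_pow hc i) fun i j _ _ => ?_)
      ((Nat.cast_ne_zero.2 hE.ne').isUnit.map _) (Algebra.commutes _ _).symm
    exact (((Commute.refl c).pow_pow i j).sub_right (Commute.one_right _)).sub_left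
      (Commute.one_left _)
  refine h1.smul_left_cancel.1 ?_
  rw [← sub_eq_zero, ← smul_sub, show c • v - v = (c - 1) • v by rw [sub_smul, one_smul],
    ← mul_smul, geom_sum_mul, sub_smul, h, one_smul, sub_self]

variable {G : Type} [Group G] {d m k : ℕ} {σ : G →* Mt m} {S : Finset (Fin d)} {N : Subgroup G}

theorem unip_nil (h : Unip σ N k 1) {x : G} (hx : x ∈ N) : IsNilpotent (σ x - 1) := ⟨k, by
  simpa using h (List.replicate k x) (fun y hy => List.eq_of_mem_replicate hy ▸ hx) (by simp)⟩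

theorem unip_tf {x : G} (h : IsNilpotent (σ x - 1)) (hx : IsOfFinOrder x) : σ x = 1 := by
  obtain ⟨E, hE, e⟩ := isOfFinOrder_iff_pow_eq_one.1 hx
  simpa using tf (v := (1 : Mt m)) h hE (by rw [← map_pow, e, map_one, one_smul])

theorem unip_pi (b : BR σ d) (h0 : ∀ i, b.e i ≠ 0) {w : G} (h : IsNilpotent (σ w - 1))
    (h' : IsNilpotent (σ w⁻¹ - 1)) : b.π w = 1 := by
  let c : Module.End ℂ (Mt m) := LinearMap.mulLeft ℂ (σ w) * LinearMap.mulRight ℂ (σ w⁻¹)
  have h1 : ∀ i, c • b.e i = b.e (b.π w i) := fun i => by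
    change σ w * (b.e i * σ w⁻¹) = _
    rw [← mul_assoc, b.act, mul_assoc, rep_mul_inv, mul_one]
  have h2 : ∀ (n : ℕ) i, c ^ n • b.e i = b.e ((b.π w ^ n) i) := fun n => by
    induction n with
    | zero => exact fun _ => rfl
    | succ n ih => exact fun i => by rw [pow_succ, mul_smul, h1, ih, pow_succ]; rfl
  have h3 : IsNilpotent (c - 1) := by
    have e : c - 1 = LinearMap.mulLeft ℂ (σ w - 1) * LinearMap.mulRight ℂ (σ w⁻¹) +
        LinearMap.mulRight ℂ (σ w⁻¹ - 1) := LinearMap.ext fun z => by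
      change σ w * (z * σ w⁻¹) - z = (σ w - 1) * (z * σ w⁻¹) + z * (σ w⁻¹ - 1)
      noncomm_ring
    rw [e]
    refine Commute.isNilpotent_add (LinearMap.ext fun z => ?_)
      ((LinearMap.commute_mulLeft_right _ _).isNilpotent_mul_right
        ((LinearMap.isNilpotent_mulLeft_iff _ _).2 h))
      ((LinearMap.isNilpotent_mulRight_iff _ _).2 h')
    change (σ w - 1) * (z * (σ w⁻¹ - 1) * σ w⁻¹) = (σ w - 1) * (z * σ w⁻¹) * (σ w⁻¹ - 1)
    noncomm_ring
  refine Equiv.ext fun i => by_contra fun hi => h0 i ?_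
  have h4 := tf h3 (orderOf_pos (b.π w)) (v := b.e i) (by rw [h2, pow_orderOf_eq_one]; rfl)
  have h5 := b.orth _ i hi
  rwa [← h1, h4, b.idem] at h5

theorem tr_mul [N.Normal] (h : Unip σ N k 1) {n : G} (hn : n ∈ N) (y : G) :
    (σ (y * n)).trace = (σ y).trace := by
  have key : ∀ t : ℕ, ∃ L : List G, (∀ x ∈ L, x ∈ N) ∧ L.length = t ∧
      ((σ n - 1) * σ y) ^ t = (L.map fun x => σ x - 1).prod * σ (y ^ t) := fun t => by
    induction t with
    | zero => exact ⟨[], by simp, rfl, by simp⟩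
    | succ t ih =>
      obtain ⟨L, h1, h2, h3⟩ := ih
      refine ⟨L ++ [y ^ t * n * (y ^ t)⁻¹], fun x hx => (List.mem_append.1 hx).elim (h1 x)
        fun e => List.mem_singleton.1 e ▸ Subgroup.Normal.conj_mem inferInstance n hn _,
        by simp [h2], ?_⟩
      rw [pow_succ, h3, List.map_append, List.prod_append, List.map_singleton, List.prod_singleton,
        mul_assoc, mul_assoc, sub_mul, sub_mul, mul_sub, one_mul, one_mul, ← map_mul, ← map_mul,
        ← map_mul, ← map_mul, pow_succ]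
      congr 3
      group
  obtain ⟨L, h1, h2, h3⟩ := key k
  have h4 := h L h1 h2
  rw [mul_one] at h4
  rw [h4, zero_mul] at h3
  have h5 := (Matrix.isNilpotent_trace_of_isNilpotent ⟨k, h3⟩).eq_zero
  rwa [sub_mul, one_mul, trace_sub, sub_eq_zero, trace_mul_comm, ← map_mul] at h5

theorem qu_mod [N.Normal] (h : Unip σ N k 1) (v w : G)
    (e : QuotientGroup.mk' N v = QuotientGroup.mk' N w) (hv : QU (σ v)) : QU (σ w) := by
  obtain ⟨E, hE, h1⟩ := hv
  refine ⟨E, hE, unip_of_trace fun t _ => ?_⟩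
  obtain ⟨n, hn, h2⟩ := (QuotientGroup.mk'_eq_mk' N (x := (v ^ E) ^ t) (y := (w ^ E) ^ t)).1
    (by simp only [map_pow, e])
  have h3 := (Matrix.isNilpotent_trace_of_isNilpotent (nil_pow h1 t)).eq_zero
  rw [trace_sub, sub_eq_zero, trace_one, Fintype.card_fin] at h3
  rw [← map_pow, ← map_pow, ← h2, tr_mul h hn, map_pow, map_pow, h3]

theorem restr (b : BR σ d) (H : Subgroup G) (hs : b.bs.Sup H S) :
    ∃ (m' : ℕ) (τ : H →* Mt m'), m' ≤ ∑ i ∈ S, (b.e i).rank ∧ (∀ y : H, QU (σ y) → QU (τ y)) ∧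
      ∀ U k, Unip τ U k 1 → Unip (σ.comp H.subtype) U (k + 1) 1 := by
  set E : Mt m := ∑ i ∈ S, b.e i with hE
  have EE : E * E = E := by
    rw [hE, Finset.sum_mul_sum]
    exact Finset.sum_congr rfl fun i hi => (Finset.sum_eq_single i
      (fun j _ hj => b.orth i j hj.symm) fun h' => absurd hi h').trans (b.idem i)
  have hc : 1 - E = ∑ i ∈ Sᶜ, b.e i := by
    rw [← b.sum, ← Finset.sum_add_sum_compl S, add_sub_cancel_left]
  have h1 : ∀ y : H, σ y * (1 - E) = 1 - E := fun y => by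
    rw [hc, Finset.mul_sum]
    exact Finset.sum_congr rfl fun l hl => (hs y y.2 l (Finset.mem_compl.1 hl)).2
  have h2 : ∀ y : H, (1 - E) * σ y = 1 - E := fun y => by
    rw [hc, Finset.sum_mul]
    refine Finset.sum_congr rfl fun l hl => ?_
    have h := hs y y.2 l (Finset.mem_compl.1 hl)
    have h' := b.act y l
    rw [h.1, h.2] at h'
    exact h'.symm
  have cs : ∀ y : H, E * σ y = σ y * E := fun y => by
    have h := (h1 y).trans (h2 y).symm
    rw [mul_sub, sub_mul, mul_one, one_mul] at h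
    exact (sub_right_injective h).symm
  obtain ⟨τ, -, -, -, -, k1, k2⟩ := cmp (σ := σ.comp H.subtype) EE fun x y => by
    change E * σ x * E * σ y * E = E * σ (x * y) * E
    rw [mul_assoc E, ← cs, ← mul_assoc, EE, map_mul, ← mul_assoc]
  refine ⟨_, τ, rank_sum_le _ _, k1, fun U k h L k3 k4 => ?_⟩
  obtain ⟨y, L, rfl⟩ := List.exists_cons_of_length_eq_add_one k4
  have k5 := k2 U k h L (fun x hx => k3 x (List.mem_cons_of_mem _ hx)) (by simpa using k4)
  have k6 : Commute E (L.map fun x => σ.comp H.subtype x - 1).prod :=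
    Commute.list_prod_right _ _ fun z hz => by
      obtain ⟨x, -, rfl⟩ := List.mem_map.1 hz
      exact (show Commute E (σ x) from cs x).sub_right (Commute.one_right E)
  rw [mul_assoc, ← k6.eq, ← mul_assoc, EE] at k5
  have k7 : σ.comp H.subtype y - 1 = (σ y - 1) * E := by
    have := h1 y
    rw [mul_sub, mul_one, sub_eq_sub_iff_sub_eq_sub] at this
    rw [sub_mul, one_mul, ← this]
    rfl
  rw [List.map_cons, List.prod_cons, k7, mul_assoc _ E, k5, mul_zero, zero_mul]

end Pool.Agent.GR.FT
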