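import Pool.Agent.Lib.MP_aa40d3_nt.NS.Grp
import Pool.Agent.Lib.MP_aa40d3_nt.FK.Abs

/-! All but a bounded number of generators have a finite normal closure; only the loops in a normal
subgroup of bounded index are known to be quasi-unipotent. -/

open Matrix

namespace Pool.Agent.GR.FT

open NP NS FK

theorem tor_rel {r : ℕ} {G : Type} [Group G] [Group.FG G] {σ : G →* Mt r} (H : Subgroup G)
    {d : ℕ} (e : Fin d → Mt r) (h0 : ∀ i, e i ≠ 0) (h1 : ∑ i, e i = 1)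
    (h : ∀ γ ∈ H, ∀ i, ∃ c : ℂ, IsOfFinOrder c ∧ σ γ * e i = c • e i) : σ.ker.relIndex H ≠ 0 := by
  have : Finite (H.map (QuotientGroup.mk' σ.ker)) :=
    tor_finH (σ := QuotientGroup.lift σ.ker σ le_rfl) (by
      rw [injective_iff_map_eq_one]
      intro x hx
      obtain ⟨x, rfl⟩ := QuotientGroup.mk'_surjective σ.ker x
      exact (QuotientGroup.eq_one_iff x).2 hx) _ e h0 h1 (by
      rintro _ ⟨γ, hγ, rfl⟩
      exact h γ hγ)
  rw [← QuotientGroup.ker_mk' σ.ker, Subgroup.relIndex_ker]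
  exact Nat.card_pos.ne'

theorem caseAT (r J : ℕ) [NeZero r] : ∃ k : ℕ, ∀ (n : ℕ) (Mov : Finset (Fin n)) (L0 : List (Fin n))
    (G : Type) [Group G] (g : Fin n → G) (σ : G →* Mt r) (K : Subgroup G) [K.Normal]
    [K.FiniteIndex], K.index ≤ J → L0.Nodup → (∀ a, a ∈ L0) →
    Subgroup.closure (Set.range g) = ⊤ → IrrR σ →
    (∀ a, QU (σ (g a))) → (∀ x, IsLoop Mov L0 g x → x ∈ K → QU (σ x)) → ∀ S ⊆ Mov, RamS σ g S k →
    ∀ (H : Subgroup G) (B : Subalgebra ℂ (Mt r)), H.Normal → H ≤ ncl g S → InvR σ B →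
    (∀ x ∈ B, x ∈ spR σ (ncl g S)) → CommA B → (∀ γ ∈ H, σ γ ∈ B) → H ≤ K → σ.ker.relIndex H ≠ 0 := by
  classical
  refine ⟨Kf (J * J * (r * r * (r * r) * 2) ^ (r * r).factorial + 1)
    (J * J * (r * r * (r * r) * 2) ^ (r * r).factorial + 1),
    fun n Mov L0 G _ g σ K _ _ hJ h0 hall hg hI hq hl S hS hZ H B hHn hHN hB hBN hc hHB hHK => ?_⟩
  have : Group.FG G := ⟨⟨Finset.univ.image g, by
    rw [Finset.coe_image, Finset.coe_univ, Set.image_univ, hg]⟩⟩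
  obtain ⟨d, s, b, hb⟩ := exists_blocks hI B hB
  have hs : ∀ i, s i = 1 := fun i => (b i).eq_one fun y z => hc _ ((b i).mem y) _ ((b i).mem z)
  by_cases hfin : ∀ γ ∈ H, ∀ i, ∃ c : ℂ, IsOfFinOrder c ∧ σ γ * (b i).φ 1 = c • (b i).φ 1
  · exact tor_rel H _ (fun i => (b i).ne_zero) hb hfin
  exfalso
  push Not at hfin
  obtain ⟨h₀, hh₀, i, hni⟩ := hfin
  obtain ⟨c₀, hc₀⟩ := (b i).scalar (hs i) (hHB _ hh₀)
  have hsc : ∀ γ ∈ H, ∃ c : ℂ, σ γ * (b i).φ 1 = c • (b i).φ 1 := fun γ hγ =>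
    (b i).scalar (hs i) (hHB _ hγ)
  have he0 := (b i).ne_zero
  have he1 := (b i).idem
  have heo := (b i).orth hB
  have heB := (b i).mem 1
  have hn0 := fun h => hni c₀ h hc₀
  generalize (b i).φ 1 = e at hc₀ hsc he0 he1 heo heB
  have hc0 := (tor_eig he0 hc₀).1
  obtain ⟨v, hv⟩ := exists_addchar (z := Units.mk0 c₀ hc0) fun h => hn0 (Units.isOfFinOrder_val.2 h)
  obtain ⟨δ, m, hm, hδ, hδq⟩ := exists_detcharQ σ he0
  obtain ⟨hfi, hidx⟩ := orth_index he0 he1 heo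
  have hHG : ∀ γ ∈ H, γ ∈ stabR σ e := fun γ hγ => hc _ (hHB γ hγ) _ heB
  obtain ⟨hpow, φ, hφ, hφe⟩ := RepC.ind_pow (stabR σ e) hidx (repC_add (v.comp δ))
  obtain ⟨ψ, hψ⟩ : ∃ ψ : G → ℂ, ∀ x (h : x ∈ stabR σ e), ψ x = (v (δ ⟨x, h⟩)).toAdd :=
    ⟨fun x => if h : x ∈ stabR σ e then (v (δ ⟨x, h⟩)).toAdd else 0, fun x h => dif_pos h⟩
  have hψm : ∀ x ∈ stabR σ e, ∀ y ∈ stabR σ e, ψ (x * y) = ψ x + ψ y := fun x hx y hy => by
    rw [hψ x hx, hψ y hy, hψ _ (mul_mem hx hy), ← toAdd_mul, ← map_mul, ← map_mul]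
    rfl
  have hψc : ∀ x ∈ H, ∀ c : ℂˣ, σ x * e = (c : ℂ) • e → ψ x = m * (v c).toAdd :=
    fun x hx c h => by
      rw [hψ x (hHG x hx), hδ ⟨x, hHG x hx⟩ c h, map_pow, toAdd_pow, nsmul_eq_mul]
  have hCn := caseaC_normal H hHn ψ
  set C := caseaC H hHn ψ with hC
  let Z : Subalgebra ℂ (Mt r) := B ⊓ Subalgebra.centralizer ℂ (σ '' (C : Set G))
  have hZm : ∀ x, x ∈ Z ↔ x ∈ B ∧ ∀ γ ∈ C, σ γ * x = x * σ γ := fun x => by
    simp only [Z, Algebra.mem_inf, Subalgebra.mem_centralizer_iff, Set.forall_mem_image,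
      SetLike.mem_coe]
  have hZi : InvR σ Z := fun γ x hx => by
    obtain ⟨k1, k2⟩ := (hZm x).1 hx
    refine (hZm _).2 ⟨hB γ x k1, fun c hcC => ?_⟩
    have k3 := k2 _ (hCn.conj_mem' c hcC γ)
    calc σ c * (σ γ * x * σ γ⁻¹) = σ γ * (σ (γ⁻¹ * c * γ) * x) * σ γ⁻¹ := by
          rw [← Matrix.mul_assoc, ← Matrix.mul_assoc, ← Matrix.mul_assoc, ← map_mul, ← map_mul]
          congr 3
          group
      _ = σ γ * x * σ γ⁻¹ * σ c := by
          rw [k3, Matrix.mul_assoc, Matrix.mul_assoc, Matrix.mul_assoc, Matrix.mul_assoc, ← map_mul,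
            ← map_mul]
          congr 3
          group
  have hZn : ∃ a ∈ S, ∃ x ∈ Z, σ (g a) * x ≠ x * σ (g a) := by
    by_contra hcon
    push Not at hcon
    obtain ⟨z, k1, k2, k3⟩ := orbit_sum (σ := σ) C heo he1 fun γ _ h => h
    have hSB : ∀ f ∈ {x : Mt r | ∃ γ ∈ C, x = σ γ * e * σ γ⁻¹}, f ∈ B := by
      rintro _ ⟨γ, -, rfl⟩
      exact hB γ e heB
    have hzZ : z ∈ Z :=
      (hZm z).2 ⟨(Submodule.span_le (p := Subalgebra.toSubmodule B)).2 hSB k1, k2⟩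
    have hz0 : z ≠ 0 := fun h => he0 (by rw [← k3, h, Matrix.mul_zero])
    have hNz : ncl g S ≤ stabR σ z := fun γ hγ => ncl_comm hZi hcon γ hγ z hzZ
    obtain ⟨δ', m', hm', hδ1, hδ2⟩ := exists_detE σ hz0
    obtain ⟨w, w2, w3⟩ := hδ2 ⟨h₀, hNz (hHN hh₀)⟩
    have key : ∀ j, ∃ u : ℂˣ, (u : ℂ) = w j ∧ (v u).toAdd = (v (Units.mk0 c₀ hc0)).toAdd := by
      intro j
      obtain ⟨u, u1, u2⟩ := w3 j
      refine eig_span (T := {c | ∃ u : ℂˣ, (u : ℂ) = c ∧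
        (v u).toAdd = (v (Units.mk0 c₀ hc0)).toAdd}) ?_ k1 u1 u2
      rintro _ ⟨γ, hγ, rfl⟩
      have k5 := hHn.conj_mem' h₀ hh₀ γ
      obtain ⟨c, k6⟩ := hsc _ k5
      refine ⟨c, ⟨Units.mk0 c (tor_eig he0 k6).1, rfl, ?_⟩, ?_⟩
      · have k8 := hγ 1 h₀ hh₀
        rw [inv_one, one_mul, mul_one, one_mul, mul_one,
          hψc _ k5 (Units.mk0 c (tor_eig he0 k6).1) k6, hψc _ hh₀ (Units.mk0 c₀ hc0) hc₀] at k8
        exact mul_left_cancel₀ (Nat.cast_ne_zero.2 hm.ne') k8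
      · rw [← Matrix.smul_mul, ← Matrix.mul_smul, ← k6, ← Matrix.mul_assoc, ← Matrix.mul_assoc,
          ← Matrix.mul_assoc, ← map_mul, ← map_mul]
        congr 3
        group
    choose u u1 u2 using key
    have k4 : δ' ⟨h₀, hNz (hHN hh₀)⟩ = ∏ j, u j := Units.ext (by
      rw [Units.coe_prod, Finset.prod_congr rfl fun j _ => u1 j, w2])
    have k5 := det_ncl hq hNz δ' hδ1 v ⟨h₀, hNz (hHN hh₀)⟩ (hHN hh₀)
    rw [k4, map_prod, toAdd_prod, Finset.sum_congr rfl fun j _ => u2 j, Finset.sum_const,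
      Finset.card_univ, Fintype.card_fin, nsmul_eq_mul] at k5
    exact hv (toAdd_eq_zero.1 ((mul_eq_zero.1 k5).resolve_left (Nat.cast_ne_zero.2 hm'.ne')))
  obtain ⟨M, hM1, hM2, hM3⟩ := hZ Z hZi (fun x hx => hBN x ((hZm x).1 hx).1) hZn
  obtain ⟨N, hN, ⟨x, hx, y, hy, hne⟩, hN0⟩ := escapeK (Mov := M) h0 hall hg K hJ
    (fun x => ∃ y ∈ Z, σ x * y ≠ y * σ x) (caseb_conj hZi) hM3 hM2 hφ
    (fun x hx hxK => by
      rw [hφe x ⟨_, hpow x⟩ rfl]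
      refine casea_tors (v.isOfFinOrder (hδq _ ?_))
      rw [Subgroup.coe_mk, map_pow]
      exact (hl x (hx.mono (hM1.trans hS)) hxK).pow _)
  refine hne (((hZm y).1 hy).2 x fun d h hh => ?_)
  have k1 := hHn.conj_mem' h hh d
  have k2 := hN.conj_mem' x hx d
  have k3 : (d⁻¹ * x * d)⁻¹ * (d⁻¹ * h * d) * (d⁻¹ * x * d) * (d⁻¹ * h * d)⁻¹ ∈ H :=
    mul_mem (hHn.conj_mem' _ k1 _) (inv_mem k1)
  have k4 : (d⁻¹ * x * d)⁻¹ * (d⁻¹ * h * d) * (d⁻¹ * x * d) * (d⁻¹ * h * d)⁻¹ ∈ N := by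
    rw [mul_assoc, mul_assoc, ← mul_assoc (d⁻¹ * h * d)]
    exact mul_mem (inv_mem k2) (hN.conj_mem _ k2 _)
  have k5 : d⁻¹ * (x⁻¹ * h * x) * d = (d⁻¹ * x * d)⁻¹ * (d⁻¹ * h * d) * (d⁻¹ * x * d) *
      (d⁻¹ * h * d)⁻¹ * (d⁻¹ * h * d) := by group
  rw [k5, hψm _ (hHG _ k3) _ (hHG _ k1), add_eq_right]
  generalize (d⁻¹ * x * d)⁻¹ * (d⁻¹ * h * d) * (d⁻¹ * x * d) * (d⁻¹ * h * d)⁻¹ = κ at k3 k4
  have k6 := hN0 κ k4 (hHK k3)
  rw [hφe κ (⟨κ, hHG κ k3⟩ ^ (r * r).factorial) rfl, map_pow, toAdd_pow, nsmul_eq_mul] at k6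
  rw [hψ κ (hHG κ k3)]
  exact (mul_eq_zero.1 k6).resolve_left (Nat.cast_ne_zero.2 (Nat.factorial_ne_zero _))

theorem finite_ramT (r J : ℕ) [NeZero r] : ∃ k : ℕ, ∀ (n : ℕ) (Mov : Finset (Fin n))
    (L0 : List (Fin n)) (G : Type) [Group G] (g : Fin n → G) (σ : G →* Mt r) (K : Subgroup G)
    [K.Normal] [K.FiniteIndex], K.index ≤ J → L0.Nodup →
    (∀ a, a ∈ L0) → Subgroup.closure (Set.range g) = ⊤ → IrrR σ →
    (∀ a, QU (σ (g a))) → (∀ x, IsLoop Mov L0 g x → x ∈ K → QU (σ x)) → ∀ S ⊆ Mov, RamS σ g S k →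
    σ.ker.relIndex (ncl g S) ≠ 0 := by
  classical
  obtain ⟨k₁, hA⟩ := caseAT r J
  obtain ⟨k₂, hB⟩ := caseBK r J
  refine ⟨max k₁ k₂, fun n Mov L0 G _ g σ K _ _ hJ h0 hall hg hI hfo hl S hS hZ => ?_⟩
  have := ncl_normal g S
  obtain ⟨B, H, hBi, hBN, hH1, hH2, hH3, hH4, hH5⟩ := exists_coreN σ (ncl g S)
  by_cases hc : CommA B
  · refine Subgroup.relIndex_ne_zero_trans (hA n Mov L0 G g σ K hJ h0 hall hg hI hfo hl S hS
      (fun Z h3 h4 h5 => by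
        obtain ⟨M, k1, k2, k3⟩ := hZ Z h3 h4 h5
        exact ⟨M, k1, (le_max_left _ _).trans k2, k3⟩) (H ⊓ K) B inferInstance
      (inf_le_left.trans hH2) hBi hBN hc (fun γ hγ => hH4 γ hγ.1) inf_le_right)
      (Subgroup.relIndex_inf_ne_zero hH3.index_ne_zero
        (inferInstance : (K.subgroupOf (ncl g S)).FiniteIndex).index_ne_zero)
  · exfalso
    obtain ⟨A, a1, a2, a3, a4⟩ := exists_minA B hBi hc
    obtain ⟨s, hs, ⟨b⟩⟩ := exists_big_block hI a2 a3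
    obtain ⟨M, k1, k2, k3⟩ := hZ A a2 (fun x hx => hBN x (a1 hx)) (by
      by_contra h3
      push Not at h3
      exact a3 fun x hx y hy =>
        spR_comm (fun γ hγ => ncl_comm a2 h3 γ hγ y hy) (hBN x (a1 hx)))
    obtain ⟨H', k4, k5⟩ := hB n M L0 G g σ K hJ h0 hall hg
      (fun x hx => hl x (hx.mono (k1.trans hS))) A s b hs a2 a4 (fun A' k6 k7 x hx y hy => by
        obtain ⟨H'', k8, k9⟩ := comm_index hI k6 k7
        exact spR_comm (fun γ hγ => k9 γ hγ y hy) (hH5 H'' k8 x (a1 hx)))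
      (fun z hz x hx => spR_comm (fun γ hγ => hγ) (hH5 _ hz x (a1 hx)))
      ((le_max_right _ _).trans k2) k3
    have h3 := b.eq_one fun y z =>
      spR_comm (fun γ hγ => k5 γ hγ z) (hH5 H' k4 _ (a1 (b.mem y)))
    omega

/-- The group theorem: no hypothesis on ramification or on the determinant. -/
theorem finite_nclT (r J : ℕ) [NeZero r] : ∃ k : ℕ, ∀ (n : ℕ) (Mov : Finset (Fin n))
    (L0 : List (Fin n)) (G : Type) [Group G] (g : Fin n → G) (σ : G →* Mt r) (K : Subgroup G)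
    [K.Normal] [K.FiniteIndex], K.index ≤ J → L0.Nodup →
    (∀ a, a ∈ L0) → Subgroup.closure (Set.range g) = ⊤ → IrrR σ →
    (∀ a, QU (σ (g a))) → (∀ x, IsLoop Mov L0 g x → x ∈ K → QU (σ x)) →
    ∃ S ⊆ Mov, (Mov \ S).card ≤ k ∧ σ.ker.relIndex (ncl g S) ≠ 0 := by
  classical
  obtain ⟨k, hk⟩ := finite_ramT r J
  refine ⟨r * r * k, fun n Mov L0 G _ g σ K _ _ hJ h0 hall hg hI hfo hl => ?_⟩
  have key : ∀ d : ℕ, ∀ S ⊆ Mov, Module.finrank ℂ (spR σ (ncl g S)) ≤ d →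
      ∃ S' ⊆ S, (S \ S').card ≤ d * k ∧ σ.ker.relIndex (ncl g S') ≠ 0 := by
    intro d
    induction d with
    | zero =>
      intro S _ hd
      exfalso
      have h1 : spR σ (ncl g S) = ⊥ := Submodule.finrank_eq_zero.1 (Nat.le_zero.1 hd)
      have h2 := burn_mem σ (ncl g S).one_mem
      rw [h1, map_one, Submodule.mem_bot] at h2
      exact one_ne_zero h2
    | succ d ih =>
      intro S hS hd
      by_cases hr : RamS σ g S k
      · exact ⟨S, subset_rfl, by simp, hk n Mov L0 G g σ K hJ h0 hall hg hI hfo hl S hS hr⟩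
      rw [RamS] at hr
      push Not at hr
      obtain ⟨Z, h1, h2, ⟨a, ha, x, hx, hne⟩, h3⟩ := hr
      let M := S.filter fun c => ∃ y ∈ Z, σ (g c) * y ≠ y * σ (g c)
      have hM : M.card < k := by
        by_contra h4
        obtain ⟨c, hc, h5⟩ := h3 M (Finset.filter_subset _ _) (not_lt.1 h4)
        obtain ⟨y, hy, h6⟩ := (Finset.mem_filter.1 hc).2
        exact h6 (h5 y hy)
      have hlt : spR σ (ncl g (S \ M)) < spR σ (ncl g S) := by
        refine lt_of_le_of_ne (burn_mono σ (ncl_mono g Finset.sdiff_subset)) fun e => hne ?_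
        refine spR_comm (H := ncl g (S \ M)) (fun γ hγ => ncl_comm h1 (fun c hc y hy => ?_) γ hγ x hx)
          (e ▸ burn_mem σ (mem_ncl ha))
        by_contra h4
        exact (Finset.mem_sdiff.1 hc).2
          (Finset.mem_filter.2 ⟨(Finset.mem_sdiff.1 hc).1, y, hy, h4⟩)
      obtain ⟨S', k1, k2, k3⟩ := ih (S \ M) (Finset.sdiff_subset.trans hS)
        (by have := Submodule.finrank_lt_finrank_of_lt hlt; omega)
      refine ⟨S', k1.trans Finset.sdiff_subset, ?_, k3⟩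
      have h4 : S \ S' ⊆ (S \ M) \ S' ∪ M := fun c hc => by
        by_cases h5 : c ∈ M
        · exact Finset.mem_union_right _ h5
        · exact Finset.mem_union_left _ (Finset.mem_sdiff.2
            ⟨Finset.mem_sdiff.2 ⟨(Finset.mem_sdiff.1 hc).1, h5⟩, (Finset.mem_sdiff.1 hc).2⟩)
      have h5 := (Finset.card_le_card h4).trans (Finset.card_union_le _ _)
      rw [Nat.succ_mul]
      omega
  refine key (r * r) Mov subset_rfl ((Submodule.finrank_le _).trans_eq ?_)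
  rw [Module.finrank_matrix, Fintype.card_fin, Module.finrank_self, mul_one]

end Pool.Agent.GR.FT
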